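import Mathlib
import Pool.Agent.W757.Q2.St
import Pool.Agent.W757.RF.Bridge
import Pool.Agent.W409.RQAPX

set_option autoImplicit false

/-! RE-Q2PTW, part 1: strictly preperiodic points, Siegel discs. -/

open Topology Filter Metric Set Polynomial MeasureTheory
open scoped OnePoint

namespace Pool.Agent.W342.RE.PTW

open Pool.Agent.H790R3.RB (CV hF cr ND wr rt sp pr hc pol Sink Attd HypTop)
open Pool.Agent.W757.QR Pool.Agent.W757.RF Pool.Agent.W757.Q2

/-- strictly preperiodic points -/
def SPre {α : Type} (f : α → α) (q : α) : Prop :=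
  (∀ m : ℕ, 0 < m → f^[m] q ≠ q) ∧ ∃ n m : ℕ, 0 < m ∧ f^[m] (f^[n] q) = f^[n] q

theorem spre_semi {α β : Type} {f : α → α} {g : β → β} (h : α ≃ β) (hs : ∀ z, g (h z) = h (f z))
    {q : α} (hq : SPre g (h q)) : SPre f q := by
  have hit : ∀ (n : ℕ) (z : α), g^[n] (h z) = h (f^[n] z) := by
    intro n z
    have : Function.Semiconj h f g := fun z => (hs z).symm
    exact (this.iterate_right n z).symm
  obtain ⟨h1, n, m, hm, h2⟩ := hq
  refine ⟨fun m hm h3 => h1 m hm (by rw [hit, h3]), n, m, hm, ?_⟩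
  rw [hit, hit] at h2
  exact h.injective h2

theorem spre_infinite {α : Type} {f : α → α} (hf : Function.Surjective f) {q : α}
    (hq : SPre f q) : {q | SPre f q}.Infinite := by
  choose g hg using hf
  set s : ℕ → α := fun n => g^[n] q with hs
  have hfs : ∀ n, f (s (n + 1)) = s n := by
    intro n
    simp only [hs, Function.iterate_succ_apply']
    exact hg _
  have hfi : ∀ n k, f^[k] (s (n + k)) = s n := by
    intro n k
    induction k with
    | zero => rfl
    | succ k ih =>
      rw [Function.iterate_succ_apply, ← Nat.add_assoc, hfs, ih]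
  have hper : ∀ n, SPre f (s n) := by
    intro n
    induction n with
    | zero => exact hq
    | succ n ih =>
      refine ⟨?_, ?_⟩
      · intro m hm h
        apply ih.1 m hm
        rw [← hfs n, ← Function.iterate_succ_apply, Function.iterate_succ_apply', h]
      · obtain ⟨-, i, m, hm, h⟩ := ih
        refine ⟨i + 1, m, hm, ?_⟩
        rw [Function.iterate_succ_apply, hfs]
        exact h
  have hinj : Function.Injective s := by
    intro n m h
    wlog hnm : n < m generalizing n m
    · rcases Nat.lt_trichotomy n m with h1 | h1 | h1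
      · exact this h h1
      · exact h1
      · exact (this h.symm h1).symm
    exfalso
    obtain ⟨k, rfl⟩ : ∃ k, m = n + k := ⟨m - n, by omega⟩
    apply (hper (n + k)).1 k (by omega)
    rw [hfi n k, h]
  exact Set.infinite_of_injective_forall_mem hinj hper

/-- strictly preperiodic points are not in Siegel discs -/
theorem sieg_avoid {f : OnePoint ℂ → OnePoint ℂ} {p : ℕ} {r : ℝ} {ρ : ℂ} {ψ : ℂ → OnePoint ℂ}
    (hp : 0 < p) (hρ : ‖ρ‖ = 1) (hirr : ∀ m : ℕ, 0 < m → ρ ^ m ≠ 1)
    (hinj : InjOn ψ (ball 0 r)) (hfe : ∀ w ∈ ball (0 : ℂ) r, f^[p] (ψ w) = ψ (ρ * w))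
    {w : ℂ} (hw : w ∈ ball (0 : ℂ) r) (j : ℕ) : ¬ SPre f (f^[j] (ψ w)) := by
  rintro ⟨h1, n, m, hm, h2⟩
  have hρ0 : ρ ≠ 0 := by
    rintro rfl
    rw [norm_zero] at hρ
    exact zero_ne_one hρ
  have hrot : ∀ k : ℕ, ρ ^ k * w ∈ ball (0 : ℂ) r := by
    intro k
    rw [mem_ball_zero_iff, norm_mul, norm_pow, hρ, one_pow, one_mul]
    exact mem_ball_zero_iff.1 hw
  have hit : ∀ k : ℕ, f^[p * k] (ψ w) = ψ (ρ ^ k * w) := by
    intro k
    induction k with
    | zero => simp
    | succ k ih =>
      have e : p * (k + 1) = p + p * k := by ring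
      rw [e, Function.iterate_add_apply, ih, hfe _ (hrot k), pow_succ]
      congr 1
      ring
  rw [← Function.iterate_add_apply f n j] at h2
  -- the point after `n + j` steps is periodic
  have h3 : f^[m] (f^[p * (n + j)] (ψ w)) = f^[p * (n + j)] (ψ w) := by
    obtain ⟨k, hk⟩ : ∃ k, p * (n + j) = k + (n + j) :=
      ⟨p * (n + j) - (n + j), by have := Nat.le_mul_of_pos_left (n + j) hp; omega⟩
    rw [hk, Function.iterate_add_apply f k (n + j), ← Function.iterate_add_apply f m k,
      Nat.add_comm m k, Function.iterate_add_apply f k m]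
    rw [h2]
  have h4 : f^[p * m] (f^[p * (n + j)] (ψ w)) = f^[p * (n + j)] (ψ w) := by
    rw [Nat.mul_comm p m, Function.iterate_mul]
    exact Function.iterate_fixed h3 p
  rw [← Function.iterate_add_apply, ← Nat.mul_add, hit, hit] at h4
  have h5 := hinj (hrot _) (hrot _) h4
  rw [pow_add, mul_assoc] at h5
  have h6 : w = 0 := by
    by_contra h0
    have h7 : ρ ^ (n + j) * w ≠ 0 := mul_ne_zero (pow_ne_zero _ hρ0) h0
    have h8 : ρ ^ m * (ρ ^ (n + j) * w) = 1 * (ρ ^ (n + j) * w) := by rw [one_mul]; exact h5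
    exact hirr m hm (mul_right_cancel₀ h7 h8)
  subst h6
  apply h1 p hp
  rw [← Function.iterate_add_apply, Nat.add_comm, Function.iterate_add_apply, hfe 0 hw, mul_zero]

variable {d : ℕ} {x : CV d}

theorem mult_deriv {a : ℂ} {p : ℕ} {ρ : ℂ} (hfa : Fin' x a)
    (hm : HasMult (sp x) p (a : OnePoint ℂ) ρ) :
    (fx x)^[p] a = a ∧ HasDerivAt ((fx x)^[p]) ρ a := by
  have hfix := hasMult_fix hm
  have hfix' : (fx x)^[p] a = a := by
    rw [Pool.Agent.W29.RQSNK.sp_iter x a p (fun j _ => hfa j)] at hfix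
    exact OnePoint.coe_injective hfix
  refine ⟨hfix', ?_⟩
  obtain ⟨g, g0, gd, ge⟩ := hm
  have h2 : ∀ᶠ z in 𝓝 a, ∀ j ∈ Finset.range p, (de x).eval ((fx x)^[j] z) ≠ 0 := by
    rw [Finset.eventually_all]
    intro j _
    have hc : ContinuousAt (fun z => (de x).eval ((fx x)^[j] z)) a :=
      (de x).continuous.continuousAt.comp
        (Pool.Agent.W29.RQSNK.fx_iter_diff x a j (fun i _ => hfa i)).continuousAt
    exact hc.eventually_ne (hfa j)
  have h3 : Tendsto (fun z : ℂ => z - a) (𝓝 a) (𝓝 0) := by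
    have : Tendsto (fun z : ℂ => z - a) (𝓝 a) (𝓝 (a - a)) :=
      tendsto_id.sub tendsto_const_nhds
    rwa [sub_self] at this
  have h4 : (fx x)^[p] =ᶠ[𝓝 a] fun z => a + g (z - a) := by
    filter_upwards [h2, h3.eventually ge] with z h5 h6
    rw [chart_coe, chart_coe, add_sub_cancel, Pool.Agent.W29.RQSNK.sp_iter x z p
      (fun j hj => h5 j (Finset.mem_range.2 hj))] at h6
    exact OnePoint.coe_injective h6
  have h5 : HasDerivAt (fun z => a + g (z - a)) ρ a := by
    have h6 : HasDerivAt g ρ (a - a) := by rw [sub_self]; exact gd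
    exact (h6.comp_sub_const a a).const_add a
  exact h5.congr_of_eventuallyEq h4

/-- the centre of a Siegel disc has the rotation number as multiplier -/
theorem siegA_mult {f : OnePoint ℂ → OnePoint ℂ} {a z : OnePoint ℂ} (H : SiegA f a z) :
    ∃ (p : ℕ) (ρ : ℂ), 0 < p ∧ ‖ρ‖ = 1 ∧ HasMult f p a ρ := by
  obtain ⟨n, p, r, ρ, ψ, hp, hr, hρ, -, hol, hinj, hfe, -, h0⟩ := H
  refine ⟨p, ρ, hp, hρ, ?_⟩
  have h00 : (0 : ℂ) ∈ ball (0 : ℂ) r := mem_ball_self hr
  obtain ⟨g, ga, ge⟩ := hol 0 h00
  rw [h0] at ge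
  have hg0 : g 0 = 0 := by
    apply chart_inj a
    rw [← ge.self_of_nhds, chart_zero, h0]
  -- `g` is injective near `0`
  obtain ⟨V, hV, hVo, h0V⟩ := _root_.mem_nhds_iff.1 (((ge.and ga.eventually_analyticAt).and
    (isOpen_ball.mem_nhds h00)))
  have hgd : DifferentiableOn ℂ g V := fun w hw => (hV hw).1.2.differentiableAt.differentiableWithinAt
  have hgi : InjOn g V := by
    intro w₁ h₁ w₂ h₂ h
    apply hinj (hV h₁).2 (hV h₂).2
    rw [(hV h₁).1.1, (hV h₂).1.1, h]
  have hne : deriv g 0 ≠ 0 := Pool.Agent.Helper540.deriv_ne_zero_of_injOn hVo hgd hgi h0V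
  have hs : HasStrictDerivAt g (deriv g 0) 0 := ga.hasStrictDerivAt
  set k := hs.localInverse g (deriv g 0) 0 hne with hk
  have hkg : ∀ᶠ u in 𝓝 (0 : ℂ), g (k u) = u := by
    have := hs.hasStrictFDerivAt_equiv hne
    have h1 := this.eventually_right_inverse
    rw [hg0] at h1
    exact h1
  have hkd : HasDerivAt k (deriv g 0)⁻¹ 0 := by
    have := (hs.to_localInverse hne).hasDerivAt
    rwa [hg0] at this
  have hk0 : k 0 = 0 := by
    have := hs.hasStrictFDerivAt_equiv hne
    have h1 := this.localInverse_apply_image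
    rw [hg0] at h1
    exact h1
  refine ⟨fun u => g (ρ * k u), by simp [hk0, hg0], ?_, ?_⟩
  · have h1 : HasDerivAt (fun u => ρ * k u) (ρ * (deriv g 0)⁻¹) 0 := hkd.const_mul ρ
    have h2 : HasDerivAt g (deriv g 0) (ρ * k 0) := by
      rw [hk0, mul_zero]
      exact hs.hasDerivAt
    have h3 := h2.comp (0 : ℂ) h1
    have e : deriv g 0 * (ρ * (deriv g 0)⁻¹) = ρ := by
      field_simp
    rw [e] at h3
    exact h3
  · have hkc : Tendsto k (𝓝 0) (𝓝 0) := by
      have := hkd.continuousAt.tendsto
      rwa [hk0] at this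
    have hkc' : Tendsto (fun u => ρ * k u) (𝓝 0) (𝓝 0) := by
      have := hkc.const_mul ρ
      rwa [mul_zero] at this
    filter_upwards [hkg, hkc.eventually ge, hkc'.eventually ge,
      hkc.eventually (isOpen_ball.mem_nhds h00)] with u h1 h2 h3 h4
    rw [← h1, ← h2, hfe _ h4, h3, h1]

/-- the two kinds of centres have multipliers of modulus one -/
theorem cen_mult {f : OnePoint ℂ → OnePoint ℂ} {a z : OnePoint ℂ}
    (H : ParaA f a z ∨ SiegA f a z) :
    ∃ (p : ℕ) (ρ : ℂ), 0 < p ∧ ‖ρ‖ = 1 ∧ HasMult f p a ρ := by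
  rcases H with ⟨p, hp, hm, -⟩ | H
  · exact ⟨p, 1, hp, norm_one, hm⟩
  · exact siegA_mult H

section plane

/-- a noncritical cycle has a preimage which is strictly preperiodic -/
theorem exists_spre (hd : 2 ≤ d) (hx : ND x) {a : ℂ} {p : ℕ} (hp : 0 < p) (hfa : Fin' x a)
    (hfix : (fx x)^[p] a = a) (hm : deriv ((fx x)^[p]) a ≠ 0) :
    ∃ q : OnePoint ℂ, SPre (sp x) q := by
  obtain ⟨p', rfl⟩ : ∃ p', p = p' + 1 := ⟨p - 1, by omega⟩
  set b : ℂ := (fx x)^[p'] a with hb
  have hfb : Fin' x b := Pool.Agent.W409.RQAPX.fin_iter hfa p'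
  have hba : fx x b = a := by
    rw [hb, ← Function.iterate_succ_apply' (fx x) p' a]
    exact hfix
  have hQb : (de x).eval b ≠ 0 := hfb 0
  have hdb : deriv (fx x) b ≠ 0 := by
    intro h0
    apply hm
    rw [Function.iterate_succ']
    rw [deriv_comp a (Pool.Agent.W409.RQAPX.f_diff hfb) (Pool.Agent.W409.RQAPX.it_diff hfa p'), h0,
      zero_mul]
  have hwb : (wn (nu x) (de x)).eval b ≠ 0 := by
    intro h0
    apply hdb
    rw [Pool.Agent.W409.RQAPX.deriv_fx x b hQb, h0, zero_div]
  have hPQ := (Pool.Agent.H790R3.RB.PQ Pool.Agent.H790R3.RB.SP d (by omega)).1 x hx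
  have hcop : IsCoprime (nu x) (de x) := hPQ.1
  have hmax : max (nu x).natDegree (de x).natDegree = d := hPQ.2.1
  have hsa : ∀ j, (sp x)^[j] (a : OnePoint ℂ) = (((fx x)^[j] a : ℂ) : OnePoint ℂ) :=
    fun j => Pool.Agent.W29.RQSNK.sp_iter x a j (fun i _ => hfa i)
  -- a preimage of `a` different from `b` is strictly preperiodic
  have hmain : ∀ q : OnePoint ℂ, sp x q = (a : OnePoint ℂ) → q ≠ (b : OnePoint ℂ) →
      SPre (sp x) q := by
    intro q hq hqb
    refine ⟨?_, 1, p' + 1, by omega, ?_⟩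
    · intro m hm0 hqm
      apply hqb
      obtain ⟨m', rfl⟩ : ∃ m', m = m' + 1 := ⟨m - 1, by omega⟩
      have h1 : (sp x)^[(m' + 1) * (p' + 1)] q = q := by
        rw [Function.iterate_mul]
        exact Function.iterate_fixed hqm _
      have h2 : (sp x)^[(m' + 1) * (p' + 1)] (b : OnePoint ℂ) = (b : OnePoint ℂ) := by
        rw [Nat.mul_comm, Function.iterate_mul]
        apply Function.iterate_fixed
        rw [Pool.Agent.W29.RQSNK.sp_iter x b _ (fun i _ => hfb i)]
        congr 1
        rw [hb, ← Function.iterate_add_apply, Nat.add_comm, Function.iterate_add_apply, hfix]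
      obtain ⟨l, hl⟩ : ∃ l, (m' + 1) * (p' + 1) = l + 1 := ⟨m' * p' + m' + p', by ring⟩
      rw [hl, Function.iterate_succ_apply] at h1 h2
      have h3 : sp x (b : OnePoint ℂ) = (a : OnePoint ℂ) := by
        rw [Pool.Agent.W29.RQSNK.sp_fx x b hQb, hba]
      rw [h3] at h2
      rw [hq] at h1
      rw [← h1, h2]
    · rw [Function.iterate_one, hq, hsa, hfix]
  set G : ℂ[X] := nu x - C a * de x with hG
  have hGb : G.eval b = 0 := by
    rw [hG, eval_sub, eval_mul, eval_C]
    have h1 : (nu x).eval b / (de x).eval b = a := hba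
    rw [div_eq_iff hQb] at h1
    rw [h1, sub_self]
  have hGd : (derivative G).eval b ≠ 0 := by
    intro h0
    apply hwb
    have h1 : (nu x).eval b = a * (de x).eval b := by
      rw [hG, eval_sub, eval_mul, eval_C] at hGb
      exact sub_eq_zero.1 hGb
    have h2 : (derivative (nu x)).eval b = a * (derivative (de x)).eval b := by
      rw [hG, derivative_sub, derivative_C_mul, eval_sub, eval_mul, eval_C] at h0
      exact sub_eq_zero.1 h0
    unfold wn
    rw [eval_sub, eval_mul, eval_mul, h1, h2]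
    ring
  have hGle : G.natDegree ≤ d := by
    refine (natDegree_sub_le _ _).trans (max_le ?_ ?_)
    · exact (le_max_left _ _).trans hmax.le
    · refine (natDegree_C_mul_le _ _).trans ?_
      exact (le_max_right _ _).trans hmax.le
  by_cases hdeg : G.natDegree = d
  · -- another finite preimage
    obtain ⟨H, hH⟩ := dvd_iff_isRoot.2 (show G.IsRoot b from hGb)
    have hG0 : G ≠ 0 := by
      intro h0
      rw [h0, natDegree_zero] at hdeg
      omega
    have hH0 : H ≠ 0 := by
      rintro rfl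
      rw [mul_zero] at hH
      exact hG0 hH
    have hHd : 0 < H.degree := by
      rw [← natDegree_pos_iff_degree_pos]
      have h1 := congrArg natDegree hH
      rw [natDegree_mul (X_sub_C_ne_zero b) hH0, natDegree_X_sub_C, hdeg] at h1
      omega
    obtain ⟨q, hq⟩ := IsAlgClosed.exists_root H hHd.ne'
    have hqb : q ≠ b := by
      rintro rfl
      apply hGd
      rw [hH, derivative_mul, eval_add, eval_mul, eval_mul]
      have h9 : H.eval b = 0 := by assumption
      rw [h9]
      simp
    have hGq : G.eval q = 0 := by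
      rw [hH, eval_mul, show H.eval q = 0 from hq, mul_zero]
    have hPq : (nu x).eval q = a * (de x).eval q := by
      rw [hG, eval_sub, eval_mul, eval_C] at hGq
      exact sub_eq_zero.1 hGq
    have hQq : (de x).eval q ≠ 0 := by
      intro h0
      rw [h0, mul_zero] at hPq
      obtain ⟨u, v, huv⟩ := hcop
      have := congrArg (eval q) huv
      rw [eval_add, eval_mul, eval_mul, hPq, h0] at this
      simp at this
    refine ⟨(q : OnePoint ℂ), hmain _ ?_ ?_⟩
    · rw [Pool.Agent.W29.RQSNK.sp_fx x q hQq]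
      congr 1
      show (nu x).eval q / (de x).eval q = a
      rw [hPq]
      field_simp
    · intro h
      exact hqb (OnePoint.coe_injective h)
  · -- infinity is a preimage
    refine ⟨∞, hmain _ ?_ (OnePoint.infty_ne_coe b)⟩
    have hcoef : G.coeff d = 0 := coeff_eq_zero_of_natDegree_lt (by omega)
    have hcf : ∀ i : Fin 2, (pol x i).coeff d = x (i, Fin.last d) := fun i => by
      have := hPQ.2.2.1 i (Fin.last d)
      simpa using this
    have h1 : x (0, Fin.last d) = a * x (1, Fin.last d) := by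
      rw [hG, coeff_sub, coeff_C_mul] at hcoef
      have e0 : (nu x).coeff d = x (0, Fin.last d) := hcf 0
      have e1 : (de x).coeff d = x (1, Fin.last d) := hcf 1
      rw [e0, e1] at hcoef
      exact sub_eq_zero.1 hcoef
    have h2 : hF x (1, 0) = (x (0, Fin.last d), x (1, Fin.last d)) := by
      have key : ∀ c : Fin (d + 1) → ℂ, ∑ j : Fin (d + 1),
          c j * ((1 : ℂ) ^ (j : ℕ) * (0 : ℂ) ^ (d - (j : ℕ))) = c (Fin.last d) := by
        intro c
        rw [Finset.sum_eq_single (Fin.last d)]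
        · simp
        · intro j _ hj
          have : (j : ℕ) < d := by
            have h3 := j.2
            have h4 : (j : ℕ) ≠ d := fun h => hj (Fin.ext h)
            omega
          rw [zero_pow (by omega), mul_zero, mul_zero]
        · intro h; exact absurd (Finset.mem_univ _) h
      unfold hF
      exact Prod.ext (key fun j => x (0, j)) (key fun j => x (1, j))
    have h3 : x (1, Fin.last d) ≠ 0 := by
      intro h0
      have h4 : hF x (1, 0) = 0 := by
        rw [h2, h1, h0, mul_zero]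
        rfl
      exact one_ne_zero (congrArg Prod.fst (hx _ h4))
    show pr (hF x (hc ∞)) = (a : OnePoint ℂ)
    have h5 : hc ∞ = (1, 0) := rfl
    rw [h5, h2]
    unfold pr
    rw [if_neg h3]
    congr 1
    rw [h1]
    field_simp

end plane

end Pool.Agent.W342.RE.PTW
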