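import Mathlib
import Pool.Agent.W342.RE.PA
import Pool.Agent.W440.RE.Genm2
import Pool.Agent.W40.RQCURVE
import Pool.Agent.W40.RQAF
import Pool.Agent.W324.RQOPA
import Pool.Agent.W29.RQAPP
import Pool.Agent.W85.RQAPS
import Pool.Agent.W29.RQSYL

set_option autoImplicit false

/-! RE-Q2PTW, part 2: the points which become attracted, in the plane; fibres. -/

open Topology Filter Metric Set Polynomial MeasureTheory
open scoped OnePoint

namespace Pool.Agent.W342.RE.PTW

open Pool.Agent.H790R3.RB (CV hF cr ND wr rt sp pr hc pol Sink Attd HypTop)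
open Pool.Agent.W757.QR Pool.Agent.W757.RF Pool.Agent.W757.Q2
open Pool.Agent.W29.RQSNK (sp_iter sp_fx sp_inf fin_of)
open Pool.Agent.W409.RQAPX (iter_cyc sieg_mul)

variable {d : ℕ} {x : CV d}

/-- points which become attracted if the cycles in `Z` are perturbed -/
def GG' (x : CV d) (Z : Finset ℂ) : Set ℂ :=
  {u | Attd (sp x) (u : OnePoint ℂ) ∨
    (∃ (p : ℕ) (a : ℂ), a ∈ Z ∧ 0 < p ∧ Fin' x a ∧ (fx x)^[p] a = a ∧
      deriv ((fx x)^[p]) a = 1 ∧ Fin' x u ∧
      Tendsto (fun i : ℕ => (fx x)^[p * i] u) atTop (𝓝 a) ∧ ∀ i : ℕ, (fx x)^[p * i] u ≠ a) ∨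
    (∃ (n p : ℕ) (r : ℝ) (h : ℂ → ℂ) (ρ : ℂ), h 0 ∈ Z ∧ 0 < p ∧ 0 < r ∧ ‖ρ‖ = 1 ∧
      (∀ m : ℕ, 0 < m → ρ ^ m ≠ 1) ∧
      DifferentiableOn ℂ h (ball 0 r) ∧ InjOn h (ball 0 r) ∧
      (∀ w ∈ ball (0 : ℂ) r, Fin' x (h w) ∧ (fx x)^[p] (h w) = h (ρ * w)) ∧ Fin' x u ∧
      (fx x)^[n] u ∈ h '' ball 0 r)}

theorem local_good (x : CV d) (hd : 2 ≤ d) (hx : ND x) (Z : Finset ℂ)
    (hcyc : Cyc (nu x) (de x) Z) (t₀ C₀ : ℝ) (X : ℝ → CV d)
    (y : ℝ → ℂ → ℂ) (kk : ℂ → ℕ → ℕ) (ht₀ : 0 < t₀) (hC₀ : 0 < C₀)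
    (hkk : ∀ z ∈ Z, ∀ p : ℕ, 0 < p → (fx x)^[p] z = z → 0 < kk z p)
    (hX : ∀ t : ℝ, 0 ≤ t → t ≤ t₀ → ND (X t) ∧ ‖X t - x‖ ≤ C₀ * t ∧
      ∀ z ∈ Z, ‖y t z - z‖ ≤ C₀ * t ∧ Fin' (X t) (y t z) ∧
        fx (X t) (y t z) = y t (fx x z) ∧
        ∀ p : ℕ, 0 < p → (fx x)^[p] z = z →
          deriv ((fx (X t))^[p]) (y t z) = ((1 - t : ℝ) : ℂ) ^ (kk z p) * deriv ((fx x)^[p]) z)
    (u : ℂ) (hu : u ∈ GG' x Z) :
    ∃ t₁ : ℝ, 0 < t₁ ∧ ∀ t : ℝ, 0 < t → t < t₁ → Attd (sp (X t)) (u : OnePoint ℂ) := by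
  have hZ : ∀ z ∈ Z, fx x z ∈ Z := fun z hz => (hcyc.1 z hz).2.2
  have hPC : ∀ (p : ℕ) (a ρ : ℂ), 0 < p → a ∈ Z → Fin' x a → (fx x)^[p] a = a →
      deriv ((fx x)^[p]) a = ρ → ‖ρ‖ = 1 → PC x p a ρ X (fun t => y t a) (kk a p) t₀ C₀ := by
    intro p a ρ hp haZ hf ha hm hρ
    refine ⟨hd, hx, ht₀, hC₀, hkk a haZ p hp ha, hp, hf, ha, hm, fun t h0 h1 => (hX t h0 h1).1,
      fun t h0 h1 => (hX t h0 h1).2.1, fun t h0 h1 => ((hX t h0 h1).2.2 a haZ).2.1,
      fun t h0 h1 => ((hX t h0 h1).2.2 a haZ).1, fun t h0 h1 => ?_, fun t h0 h1 => ?_⟩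
    · have h := (iter_cyc x (X t) _ hZ (y t)
        (fun z hz => ((hX t h0 h1).2.2 z hz).2.2.1) p a haZ).2
      show (fx (X t))^[p] (y t a) = y t a
      rw [h, ha]
    · have h := ((hX t h0 h1).2.2 a haZ).2.2.2 p hp ha
      rw [hm] at h
      exact h
  rcases hu with h | ⟨p, a, haZ, hp, hf, ha, hm, hfu, hlim, hne⟩ |
      ⟨n, p, r, h, ρ, haZ, hp, hr, hρ, hirr, hdh, hi, hc, hfu, hn⟩
  · obtain ⟨σ, U, hσ, hU, H⟩ := Pool.Agent.W324.RQOPA.task d x u hd hx h
    refine ⟨min t₀ (σ / C₀), lt_min ht₀ (by positivity), ?_⟩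
    intro t h0 h1
    have h3 : t ≤ t₀ := (h1.trans_le (min_le_left _ _)).le
    have h4 : t < σ / C₀ := h1.trans_le (min_le_right _ _)
    rw [lt_div_iff₀ hC₀] at h4
    have h5 := (hX t h0.le h3).2.1
    exact (H (X t) (by linarith)).2 _ (mem_of_mem_nhds hU)
  · obtain ⟨δ, t₁, hδ, ht₁, H⟩ := Pool.Agent.W29.RQAPP.task Pool.Agent.W29.RQSNK.task
      Pool.Agent.H713R5.QJ.pbl_holds d x p a X (fun t => y t a) (kk a p) t₀ C₀ u
      (hPC p a 1 hp haZ hf ha hm norm_one) hfu hlim hne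
    exact ⟨t₁, ht₁, fun t h0 h1 => H t h0 h1 u (mem_ball_self hδ)⟩
  · obtain ⟨b1, b2⟩ := sieg_mul x p r h ρ hr hρ hdh hi hc
    obtain ⟨δ, t₁, hδ, ht₁, H⟩ := Pool.Agent.W85.RQAPS.task Pool.Agent.W29.RQSNK.task
      Pool.Agent.H713R5.QJ.sgl_holds d x n p ρ r h X (fun t => y t (h 0))
      (kk (h 0) p) t₀ C₀ u (hPC p (h 0) ρ hp haZ (hc 0 (mem_ball_self hr)).1 b1 b2 hρ) hr hρ hirr
      hdh hi hc hfu hn
    exact ⟨t₁, ht₁, fun t h0 h1 => H t h0 h1 u (mem_ball_self hδ)⟩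

/-! ### fibres of the map on the sphere -/

theorem rm_of (hd : 2 ≤ d) (hx : ND x) : RM d (nu x) (de x) := by
  have hPQ := (Pool.Agent.H790R3.RB.PQ Pool.Agent.H790R3.RB.SP d (by omega)).1 x hx
  exact ⟨hd, hPQ.1, hPQ.2.1⟩

theorem fib_finite (hd : 2 ≤ d) (hx : ND x) (b : OnePoint ℂ) :
    {z : OnePoint ℂ | sp x z = b}.Finite := by
  have hRM := rm_of hd hx
  have hfin : {z : ℂ | sp x (z : OnePoint ℂ) = b}.Finite := by
    induction b using OnePoint.rec with
    | infty =>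
      refine ((de x).roots.toFinset.finite_toSet).subset ?_
      intro z hz
      rw [Finset.mem_coe, Multiset.mem_toFinset, mem_roots (Pool.Agent.W40.RQAF.Q_ne hRM)]
      by_contra h0
      have h1 : sp x (z : OnePoint ℂ) = ∞ := hz
      rw [sp_fx x z h0] at h1
      exact OnePoint.coe_ne_infty _ h1
    | coe b =>
      refine ((nu x - C b * de x).roots.toFinset.finite_toSet).subset ?_
      intro z hz
      rw [Finset.mem_coe, Multiset.mem_toFinset, mem_roots (Pool.Agent.W40.RQAF.af_ne hRM b)]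
      have h1 : sp x (z : OnePoint ℂ) = (b : OnePoint ℂ) := hz
      have h0 : (de x).eval z ≠ 0 := by
        intro h0
        rw [sp_inf x z h0] at h1
        exact OnePoint.infty_ne_coe _ h1
      rw [sp_fx x z h0] at h1
      have h2 : (nu x).eval z / (de x).eval z = b := OnePoint.coe_injective h1
      rw [div_eq_iff h0] at h2
      show (nu x - C b * de x).eval z = 0
      rw [eval_sub, eval_mul, eval_C, h2, sub_self]
  refine ((hfin.image (fun z : ℂ => (z : OnePoint ℂ))).insert ∞).subset ?_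
  intro z hz
  induction z using OnePoint.rec with
  | infty => exact mem_insert _ _
  | coe z => exact mem_insert_of_mem _ ⟨z, hz, rfl⟩

theorem pre_countable (hd : 2 ≤ d) (hx : ND x) (b : OnePoint ℂ) (n : ℕ) :
    {z : OnePoint ℂ | (sp x)^[n] z = b}.Countable := by
  induction n generalizing b with
  | zero => exact (Set.countable_singleton b).mono fun z hz => hz
  | succ n ih =>
    have h1 : {z : OnePoint ℂ | (sp x)^[n + 1] z = b} =
        ⋃ c ∈ {c : OnePoint ℂ | sp x c = b}, {z | (sp x)^[n] z = c} := by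
      ext z
      simp only [mem_ofPred_eq, mem_iUnion, exists_prop]
      constructor
      · intro h
        refine ⟨(sp x)^[n] z, ?_, rfl⟩
        rw [← Function.iterate_succ_apply' (sp x) n z]
        exact h
      · rintro ⟨c, hc, h⟩
        rw [Function.iterate_succ_apply', h, hc]
    rw [h1]
    exact (fib_finite hd hx b).countable.biUnion fun c _ => ih c

theorem sp_infty (x : CV d) : sp x ∞ = pr (x (0, Fin.last d), x (1, Fin.last d)) := by
  have h2 : hF x (1, 0) = (x (0, Fin.last d), x (1, Fin.last d)) := by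
    have key : ∀ c : Fin (d + 1) → ℂ, ∑ j : Fin (d + 1),
        c j * ((1 : ℂ) ^ (j : ℕ) * (0 : ℂ) ^ (d - (j : ℕ))) = c (Fin.last d) := by
      intro c
      rw [Finset.sum_eq_single (Fin.last d)]
      · simp
      · intro j _ hj
        have : (j : ℕ) < d := by
          have h3 := j.2
          have h4 : (j : ℕ) ≠ d := fun h => hj (Fin.ext h)
          omega
        rw [zero_pow (by omega), mul_zero, mul_zero]
      · intro h; exact absurd (Finset.mem_univ _) h
    unfold hF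
    exact Prod.ext (key fun j => x (0, j)) (key fun j => x (1, j))
  show pr (hF x (hc ∞)) = _
  have h5 : hc ∞ = (1, 0) := rfl
  rw [h5, h2]

theorem last_ne (hx : ND x) : x (0, Fin.last d) ≠ 0 ∨ x (1, Fin.last d) ≠ 0 := by
  by_contra hcon
  push Not at hcon
  have h2 : hF x (1, 0) = (x (0, Fin.last d), x (1, Fin.last d)) := by
    have key : ∀ c : Fin (d + 1) → ℂ, ∑ j : Fin (d + 1),
        c j * ((1 : ℂ) ^ (j : ℕ) * (0 : ℂ) ^ (d - (j : ℕ))) = c (Fin.last d) := by
      intro c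
      rw [Finset.sum_eq_single (Fin.last d)]
      · simp
      · intro j _ hj
        have : (j : ℕ) < d := by
          have h3 := j.2
          have h4 : (j : ℕ) ≠ d := fun h => hj (Fin.ext h)
          omega
        rw [zero_pow (by omega), mul_zero, mul_zero]
      · intro h; exact absurd (Finset.mem_univ _) h
    unfold hF
    exact Prod.ext (key fun j => x (0, j)) (key fun j => x (1, j))
  rw [hcon.1, hcon.2] at h2
  exact one_ne_zero (congrArg Prod.fst (hx _ h2))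

theorem sp_surj (hd : 2 ≤ d) (hx : ND x) : Function.Surjective (sp x) := by
  have hRM := rm_of hd hx
  have hPQ := (Pool.Agent.H790R3.RB.PQ Pool.Agent.H790R3.RB.SP d (by omega)).1 x hx
  have hcf : ∀ i : Fin 2, (pol x i).coeff d = x (i, Fin.last d) := fun i => by
    have := hPQ.2.2.1 i (Fin.last d)
    simpa using this
  have e0 : (nu x).coeff d = x (0, Fin.last d) := hcf 0
  have e1 : (de x).coeff d = x (1, Fin.last d) := hcf 1
  have hl := last_ne hx
  intro b
  induction b using OnePoint.rec with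
  | infty =>
    by_cases h0 : (de x).degree = 0
    · refine ⟨∞, ?_⟩
      rw [sp_infty]
      have h1 : (de x).coeff d = 0 := by
        apply coeff_eq_zero_of_natDegree_lt
        rw [natDegree_eq_zero_iff_degree_le_zero.2 h0.le]
        omega
      rw [e1] at h1
      rw [h1]
      unfold pr
      rw [if_pos rfl]
    · obtain ⟨q, hq⟩ := IsAlgClosed.exists_root (de x) h0
      exact ⟨(q : OnePoint ℂ), sp_inf x q hq⟩
  | coe b =>
    by_cases h0 : (nu x - C b * de x).degree = 0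
    · refine ⟨∞, ?_⟩
      rw [sp_infty]
      have h1 : (nu x - C b * de x).coeff d = 0 := by
        apply coeff_eq_zero_of_natDegree_lt
        rw [natDegree_eq_zero_iff_degree_le_zero.2 h0.le]
        omega
      rw [coeff_sub, coeff_C_mul, e0, e1] at h1
      have h2 : x (0, Fin.last d) = b * x (1, Fin.last d) := sub_eq_zero.1 h1
      have h3 : x (1, Fin.last d) ≠ 0 := by
        intro h3
        rw [h3, mul_zero] at h2
        rcases hl with h | h
        · exact h h2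
        · exact h h3
      unfold pr
      rw [if_neg h3]
      congr 1
      rw [h2]
      field_simp
    · obtain ⟨q, hq⟩ := IsAlgClosed.exists_root (nu x - C b * de x) h0
      have hPq : (nu x).eval q = b * (de x).eval q := by
        have h1 : (nu x - C b * de x).eval q = 0 := hq
        rw [eval_sub, eval_mul, eval_C] at h1
        exact sub_eq_zero.1 h1
      have hQq : (de x).eval q ≠ 0 := by
        intro h0
        rw [h0, mul_zero] at hPq
        obtain ⟨u, v, huv⟩ := hRM.2.1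
        have := congrArg (eval q) huv
        rw [eval_add, eval_mul, eval_mul, hPq, h0] at this
        simp at this
      refine ⟨(q : OnePoint ℂ), ?_⟩
      rw [sp_fx x q hQq]
      congr 1
      show (nu x).eval q / (de x).eval q = b
      rw [hPq]
      field_simp

/-! ### transport of basins with their centres -/

section mobius

variable {s t u v : ℂ} {h : OnePoint ℂ ≃ₜ OnePoint ℂ} {f g : OnePoint ℂ → OnePoint ℂ}

theorem paraA_transport (hdet : s * v - t * u = 1)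
    (hh : ∀ p : ℂ × ℂ, p ≠ 0 → h (pr p) = pr (s * p.1 + t * p.2, u * p.1 + v * p.2))
    (hs : ∀ z, g (h z) = h (f z)) {a z : OnePoint ℂ} (H : ParaA f a z) :
    ParaA g (h a) (h z) := by
  obtain ⟨p, hp, hm, hT, hne⟩ := H
  refine ⟨p, hp, hasMult_transport hdet hh hs hm, ?_, ?_⟩
  · have := (h.continuous.tendsto a).comp hT
    refine this.congr fun k => ?_
    simp only [Function.comp, Pool.Agent.H790R3.RB.ALL.iter h hs]
  · intro k
    rw [Pool.Agent.H790R3.RB.ALL.iter h hs]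
    exact fun e => hne k (h.injective e)

theorem siegA_transport (hdet : s * v - t * u = 1)
    (hh : ∀ p : ℂ × ℂ, p ≠ 0 → h (pr p) = pr (s * p.1 + t * p.2, u * p.1 + v * p.2))
    (hs : ∀ z, g (h z) = h (f z)) {a z : OnePoint ℂ} (H : SiegA f a z) :
    SiegA g (h a) (h z) := by
  obtain ⟨n, p, r, ρ, ψ, hp, hr, hρ, hirr, hol, hinj, hfe, ⟨w, hw, hwz⟩, h0⟩ := H
  refine ⟨n, p, r, ρ, fun w => h (ψ w), hp, hr, hρ, hirr, ?_, ?_, ?_, ⟨w, hw, ?_⟩, ?_⟩
  · intro w₀ hw₀
    obtain ⟨φ, φa, φe⟩ := hol w₀ hw₀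
    obtain ⟨m, ma, m0, me⟩ := chart_change hdet hh (ψ w₀)
    have h0 : φ w₀ = 0 := by
      apply chart_inj (ψ w₀)
      rw [← φe.self_of_nhds, chart_zero]
    have hc : Tendsto φ (𝓝 w₀) (𝓝 0) := by
      have := φa.continuousAt.tendsto
      rwa [h0] at this
    refine ⟨fun w => m (φ w), ?_, ?_⟩
    · have ma' : AnalyticAt ℂ m (φ w₀) := by rw [h0]; exact ma
      exact ma'.comp φa
    · filter_upwards [φe, hc.eventually me] with w h1 h2
      rw [h1]
      exact h2
  · intro w₁ h₁ w₂ h₂ he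
    exact hinj h₁ h₂ (h.injective he)
  · intro w₁ h₁
    show g^[p] (h (ψ w₁)) = h (ψ (ρ * w₁))
    rw [Pool.Agent.H790R3.RB.ALL.iter h hs, hfe w₁ h₁]
  · show h (ψ w) = g^[n] (h z)
    rw [Pool.Agent.H790R3.RB.ALL.iter h hs, hwz]
  · show h (ψ 0) = h a
    rw [h0]

end mobius

end Pool.Agent.W342.RE.PTW
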