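import Mathlib
import Pool.Agent.W342.RE.PB

set_option autoImplicit false

/-! RE-Q2PTW, part 3: coordinates in which infinity is strictly preperiodic; the theorem. -/

open Topology Filter Metric Set Polynomial MeasureTheory
open scoped OnePoint

namespace Pool.Agent.W342.RE.PTW

open Pool.Agent.H790R3.RB (CV hF cr ND wr rt sp pr hc pol Sink Attd HypTop)
open Pool.Agent.W757.QR Pool.Agent.W757.RF Pool.Agent.W757.Q2
open Pool.Agent.W29.RQSNK (sp_iter sp_fx sp_inf fin_of)
open Pool.Agent.W409.RQAPX (Ind ind_finite ind_cyc ind_unit)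

variable {d : ℕ} {x : CV d}

theorem per_ne {f : OnePoint ℂ → OnePoint ℂ} (hinf : SPre f ∞) {a : OnePoint ℂ} {p : ℕ}
    (hp : 0 < p) (hfix : f^[p] a = a) (j : ℕ) : f^[j] a ≠ ∞ := by
  intro h
  apply hinf.1 p hp
  rw [← h, ← Function.iterate_add_apply, Nat.add_comm, Function.iterate_add_apply, hfix]

theorem mem_ind (hinf : SPre (sp x) ∞) {a : OnePoint ℂ} {p j : ℕ} {ρ : ℂ} (hp : 0 < p)
    (hpj : p ≤ j) (hρ : ‖ρ‖ = 1) (hm : HasMult (sp x) p a ρ) : toC a ∈ Ind x j := by
  have hfix := hasMult_fix hm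
  have hne := per_ne hinf hp hfix
  induction a using OnePoint.rec with
  | infty => exact absurd rfl (hne 0)
  | coe a =>
    have hfa : Fin' x a := fin_of x a hne
    obtain ⟨h1, h2⟩ := mult_deriv hfa hm
    exact ⟨p, hp, hpj, hfa, h1, by rw [toC_coe, h2.deriv, hρ]⟩

/-- points of the plane in the basins of the centres -/
theorem mem_gg (hinf : SPre (sp x) ∞) {Z : Finset ℂ} {a : OnePoint ℂ} {z : ℂ}
    (haZ : toC a ∈ Z) (hfz : ∀ j, (sp x)^[j] (z : OnePoint ℂ) ≠ ∞)
    (H : ParaA (sp x) a z ∨ SiegA (sp x) a z) : z ∈ GG' x Z := by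
  have hfz' : Fin' x z := fin_of x z hfz
  rcases H with ⟨p, hp, hm, hT, hne⟩ | ⟨n, p, r, ρ, h, hp, hr, hρ, hirr, hol, hinj, hfe, ⟨w, hw, hwz⟩, h0⟩
  · refine Or.inr (Or.inl ?_)
    have hfix := hasMult_fix hm
    have hnea := per_ne hinf hp hfix
    induction a using OnePoint.rec with
    | infty => exact absurd rfl (hnea 0)
    | coe a =>
      have hfa : Fin' x a := fin_of x a hnea
      obtain ⟨h1, h2⟩ := mult_deriv hfa hm
      refine ⟨p, a, haZ, hp, hfa, h1, h2.deriv, hfz', ?_, ?_⟩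
      · rw [(OnePoint.isOpenEmbedding_coe.isInducing).tendsto_nhds_iff]
        refine hT.congr fun k => ?_
        exact sp_iter x z (p * k) (fun j _ => hfz' j)
      · intro k hk
        apply hne k
        rw [sp_iter x z (p * k) (fun j _ => hfz' j), hk]
  · refine Or.inr (Or.inr ?_)
    have hav : ∀ w ∈ ball (0 : ℂ) r, ∀ j, (sp x)^[j] (h w) ≠ ∞ := by
      intro w hw j h1
      have h2 := sieg_avoid hp hρ hirr hinj hfe hw j
      rw [h1] at h2
      exact h2 hinf
    have hne : ∀ w ∈ ball (0 : ℂ) r, h w ≠ ∞ := fun w hw => hav w hw 0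
    have hco : ∀ w ∈ ball (0 : ℂ) r, ((toC (h w) : ℂ) : OnePoint ℂ) = h w := fun w hw =>
      coe_toC (hne w hw)
    have hfin : ∀ w ∈ ball (0 : ℂ) r, Fin' x (toC (h w)) := by
      intro w hw
      apply fin_of
      rw [hco w hw]
      exact hav w hw
    have hrot : ∀ w ∈ ball (0 : ℂ) r, ρ * w ∈ ball (0 : ℂ) r := by
      intro w hw
      rw [mem_ball_zero_iff, norm_mul, hρ, one_mul]
      exact mem_ball_zero_iff.1 hw
    refine ⟨n, p, r, fun w => toC (h w), ρ, ?_, hp, hr, hρ, hirr, ?_, ?_, ?_, hfz', w, hw, ?_⟩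
    · show toC (h 0) ∈ Z
      rw [h0]
      exact haZ
    · intro w₀ hw₀
      obtain ⟨g, ga, ge⟩ := hol w₀ hw₀
      have h1 : (fun w => toC (h w)) =ᶠ[𝓝 w₀] fun w => toC (h w₀) + g w := by
        filter_upwards [ge] with w hw
        rw [hw, ← hco w₀ hw₀, chart_coe, toC_coe, toC_coe]
      have h2 : DifferentiableAt ℂ (fun w => toC (h w₀) + g w) w₀ :=
        ga.differentiableAt.const_add _
      exact (h2.congr_of_eventuallyEq h1).differentiableWithinAt
    · intro w₁ h₁ w₂ h₂ he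
      apply hinj h₁ h₂
      rw [← hco w₁ h₁, ← hco w₂ h₂]
      exact congrArg _ he
    · intro w hw
      refine ⟨hfin w hw, ?_⟩
      apply OnePoint.coe_injective
      show (((fx x)^[p] (toC (h w)) : ℂ) : OnePoint ℂ) = ((toC (h (ρ * w)) : ℂ) : OnePoint ℂ)
      rw [← sp_iter x (toC (h w)) p (fun j _ => hfin w hw j), hco w hw, hfe w hw, hco _ (hrot w hw)]
    · apply OnePoint.coe_injective
      show ((toC (h w) : ℂ) : OnePoint ℂ) = (((fx x)^[n] z : ℂ) : OnePoint ℂ)
      rw [hco w hw, ← sp_iter x z n (fun j _ => hfz' j), hwz]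

/-- if there is an indifferent cycle with a basin then there are infinitely many strictly
preperiodic points -/
theorem spre_inf_of (hd : 2 ≤ d) (hx : ND x) {a₀ : OnePoint ℂ} {p : ℕ} {ρ : ℂ} (hp : 0 < p)
    (hρ : ‖ρ‖ = 1) (hm : HasMult (sp x) p a₀ ρ) : {q | SPre (sp x) q}.Infinite := by
  have hfix := hasMult_fix hm
  have hinfi : Infinite (OnePoint ℂ) :=
    Infinite.of_injective (fun z : ℂ => (z : OnePoint ℂ)) OnePoint.coe_injective
  have hSi : {q : OnePoint ℂ | ∀ j, (sp x)^[j] a₀ ≠ q}.Infinite := by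
    have h1 : (Set.range fun j : ℕ => (sp x)^[j] a₀).Finite := by
      refine (((Finset.range p).finite_toSet).image (fun j => (sp x)^[j] a₀)).subset ?_
      rintro _ ⟨j, rfl⟩
      refine ⟨j % p, ?_, ?_⟩
      · rw [Finset.mem_coe, Finset.mem_range]
        exact Nat.mod_lt _ hp
      · exact Function.IsPeriodicPt.iterate_mod_apply hfix j
    refine h1.infinite_compl.mono ?_
    intro q hq j hj
    exact hq ⟨j, hj⟩
  obtain ⟨a, b, c, e, h, x₂, T, hdet, hh, hx₂, hs, -, -, -, -, -, hmem⟩ :=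
    Pool.Agent.W440.RE.GENM2.genm_mem d x ∅ _ hSi hd hx
  have hs' : ∀ z, sp x₂ (h z) = h (sp x z) := fun z => (hs z).symm
  have hm₂ := hasMult_transport hdet hh hs' hm
  have hav : ∀ j, (sp x₂)^[j] (h a₀) ≠ ∞ := by
    intro j hj
    rw [Pool.Agent.H790R3.RB.ALL.iter h hs'] at hj
    apply hmem j
    rw [← hj, h.symm_apply_apply]
  have hne : h a₀ ≠ ∞ := hav 0
  have hco := coe_toC hne
  have hfa : Fin' x₂ (toC (h a₀)) := by
    apply fin_of
    rw [hco]
    exact hav
  rw [← hco] at hm₂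
  obtain ⟨h1, h2⟩ := mult_deriv hfa hm₂
  have hρ0 : ρ ≠ 0 := by
    rintro rfl
    rw [norm_zero] at hρ
    exact zero_ne_one hρ
  obtain ⟨q, hq⟩ := exists_spre hd hx₂ hp hfa h1 (by rw [h2.deriv]; exact hρ0)
  have hq' : SPre (sp x) (h.symm q) := by
    apply spre_semi h.toEquiv (g := sp x₂) hs'
    have e : h.toEquiv (h.symm q) = q := h.apply_symm_apply q
    rw [e]
    exact hq
  exact spre_infinite (sp_surj hd hx) hq'

end Pool.Agent.W342.RE.PTW
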