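import Mathlib

set_option autoImplicit false

/-! One variable part of the gain of area (RE-GAIN). -/

open Topology Filter Metric Set MeasureTheory

namespace Pool.Agent.W342.RE

/-- the expansion `G t = a + b t ^ N + o (t ^ N)` of an analytic function -/
def T (N : ℕ) (G : ℂ → ℂ) (a b : ℂ) : Prop :=
  ∃ g : ℂ → ℂ, AnalyticAt ℂ g 0 ∧ g 0 = b ∧ ∀ᶠ t in 𝓝 (0 : ℂ), G t = a + t ^ N * g t

theorem T.mul {N : ℕ} (hN : 1 ≤ N) {G G' : ℂ → ℂ} {a b a' b' : ℂ} (h : T N G a b)
    (h' : T N G' a' b') : T N (fun t => G t * G' t) (a * a') (a * b' + b * a') := by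
  obtain ⟨g, hg, hg0, he⟩ := h
  obtain ⟨g', hg', hg0', he'⟩ := h'
  refine ⟨fun t => a * g' t + g t * a' + t ^ N * (g t * g' t), by fun_prop, ?_, ?_⟩
  · have : N ≠ 0 := by omega
    simp [hg0, hg0', this]
  · filter_upwards [he, he'] with t h1 h2
    rw [h1, h2]
    ring

theorem T.comp {N : ℕ} {G : ℂ → ℂ} {a b : ℂ} (hN : 1 ≤ N) (h : T N G a b) {f : ℂ → ℂ}
    (hf : AnalyticAt ℂ f a) : T N (fun t => f (G t)) (f a) (deriv f a * b) := by
  obtain ⟨g, hg, hg0, he⟩ := h
  have hN0 : N ≠ 0 := by omega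
  have hs : AnalyticAt ℂ (dslope f a) a := by
    obtain ⟨p, hp⟩ := hf
    exact ⟨_, hp.has_fpower_series_dslope_fslope⟩
  refine ⟨fun t => g t * dslope f a (a + t ^ N * g t), ?_, ?_, ?_⟩
  · have h1 : AnalyticAt ℂ (fun t : ℂ => a + t ^ N * g t) 0 := by fun_prop
    have h2 : AnalyticAt ℂ (fun t : ℂ => dslope f a (a + t ^ N * g t)) 0 :=
      hs.comp_of_eq h1 (by simp [hN0])
    exact hg.mul h2
  · simp [hN0, hg0, dslope_same, mul_comm]
  · filter_upwards [he] with t h1
    rw [h1]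
    have h2 := sub_smul_dslope f a (a + t ^ N * g t)
    rw [smul_eq_mul, add_sub_cancel_left] at h2
    rw [← mul_assoc, h2]
    ring

theorem T.of_taylor {N : ℕ} (hN : 1 ≤ N) {G : ℂ → ℂ} (hG : AnalyticAt ℂ G 0)
    (h0 : ∀ k : ℕ, 1 ≤ k → k < N → iteratedDeriv k G 0 = 0) :
    T N G (G 0) ((Nat.factorial N : ℂ)⁻¹ * iteratedDeriv N G 0) := by
  obtain ⟨F, hF, he⟩ := hG.exists_eventuallyEq_sum_add_pow_mul (N + 1)
  refine ⟨fun t => (Nat.factorial N : ℂ)⁻¹ * iteratedDeriv N G 0 + t * F t, by fun_prop,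
    by simp, ?_⟩
  filter_upwards [he] with t ht
  rw [ht, Finset.sum_range_succ]
  obtain ⟨M, rfl⟩ : ∃ M, N = M + 1 := ⟨N - 1, by omega⟩
  rw [Finset.sum_range_succ']
  have h1 : ∑ k ∈ Finset.range M, (t ^ (k + 1) / ((k + 1).factorial : ℂ)) •
      iteratedDeriv (k + 1) G 0 = 0 := by
    apply Finset.sum_eq_zero
    intro k hk
    rw [h0 (k + 1) (by omega) (by have := Finset.mem_range.1 hk; omega), smul_zero]
  rw [h1]
  simp only [smul_eq_mul, pow_zero, Nat.factorial_zero, Nat.cast_one, iteratedDeriv_zero]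
  field_simp
  ring

/-- the mean value property -/
theorem mean {f : ℂ → ℂ} {τ ρ : ℝ} (hρ : 0 < ρ) (hρτ : ρ < τ)
    (hf : DifferentiableOn ℂ f (ball 0 τ)) :
    ∫ θ in (0 : ℝ)..(2 * Real.pi), f (circleMap 0 ρ θ) = 2 * Real.pi * f 0 := by
  have h1 : DiffContOnCl ℂ f (ball 0 |ρ|) := by
    rw [abs_of_pos hρ]
    refine DifferentiableOn.diffContOnCl_ball (U := ball 0 τ) hf ?_
    exact closedBall_subset_ball hρτ
  have h2 := h1.circleAverage
  rw [Real.circleAverage_def] at h2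
  rw [← h2, Complex.real_smul]
  have : (2 * Real.pi : ℂ) ≠ 0 := by
    norm_cast
    positivity
  push_cast
  field_simp

theorem circ_mem {τ ρ : ℝ} (hρ : 0 < ρ) (hρτ : ρ < τ) (θ : ℝ) :
    circleMap 0 ρ θ ∈ ball (0 : ℂ) τ := by
  rw [mem_ball_zero_iff, norm_circleMap_zero, abs_of_pos hρ]
  exact hρτ

theorem circ_cont {f : ℂ → ℂ} {τ ρ : ℝ} (hρ : 0 < ρ) (hρτ : ρ < τ)
    (hf : ContinuousOn f (ball 0 τ)) : Continuous fun θ : ℝ => f (circleMap 0 ρ θ) :=
  hf.comp_continuous (continuous_circleMap 0 ρ) (circ_mem hρ hρτ)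

/-- lower bound of the mean of `‖G‖ ^ 2` -/
theorem bessel {N : ℕ} (hN : 1 ≤ N) {G : ℂ → ℂ} {D : ℂ} {τ ρ : ℝ} (hρ : 0 < ρ) (hρτ : ρ < τ)
    (hG : DifferentiableOn ℂ G (ball 0 τ)) (hT : T N G 1 D) :
    2 * Real.pi * (1 + ρ ^ (2 * N) * ‖D‖ ^ 2) ≤
      ∫ θ in (0 : ℝ)..(2 * Real.pi), ‖G (circleMap 0 ρ θ)‖ ^ 2 := by
  obtain ⟨g, hg, hg0, he⟩ := hT
  have hN0 : N ≠ 0 := by omega
  have hτ : 0 < τ := by linarith
  set k : ℂ → ℂ := fun t => if t = 0 then D else (G t - 1) / t ^ N with hk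
  have hkg : k =ᶠ[𝓝 0] g := by
    filter_upwards [he] with t ht
    by_cases h0 : t = 0
    · simp [hk, h0, hg0]
    · have : t ^ N ≠ 0 := pow_ne_zero _ h0
      simp only [hk, if_neg h0, ht]
      field_simp
      ring
  have hG1 : G 0 = 1 := by
    have := he.self_of_nhds
    simpa [hN0] using this
  have hkd : DifferentiableOn ℂ k (ball 0 τ) := by
    intro t ht
    by_cases h0 : t = 0
    · subst h0
      exact (hkg.differentiableAt_iff.2 hg.differentiableAt).differentiableWithinAt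
    · have h1 : DifferentiableAt ℂ G t := hG.differentiableAt (isOpen_ball.mem_nhds ht)
      have h2 : DifferentiableAt ℂ (fun t => (G t - 1) / t ^ N) t :=
        (h1.sub_const 1).div (by fun_prop) (pow_ne_zero _ h0)
      refine (Filter.EventuallyEq.differentiableAt_iff ?_).2 h2 |>.differentiableWithinAt
      filter_upwards [isOpen_ne.mem_nhds h0] with s hs
      exact if_neg hs
  have hGk : ∀ t, G t = 1 + t ^ N * k t := by
    intro t
    by_cases h0 : t = 0
    · simp [h0, hN0, hG1]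
    · have : t ^ N ≠ 0 := pow_ne_zero _ h0
      simp only [hk, if_neg h0]
      field_simp
      ring
  set c : ℝ := ρ ^ (2 * N) with hc
  -- the holomorphic function whose real part is the lower bound
  set Y : ℂ → ℂ := fun t => 2 * (t ^ N * k t) + 2 * c * (starRingEnd ℂ D) * k t with hY
  have hYd : DifferentiableOn ℂ Y (ball 0 τ) := by
    have h1 : DifferentiableOn ℂ (fun t : ℂ => t ^ N) (ball 0 τ) := by fun_prop
    exact ((h1.mul hkd).const_mul 2).add (hkd.const_mul _)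
  have hY0 : Y 0 = 2 * c * (starRingEnd ℂ D) * D := by
    simp [hY, hN0, hk]
  have hmean := mean hρ hρτ hYd
  have hlow : ∀ θ : ℝ, 1 - c * ‖D‖ ^ 2 + (Y (circleMap 0 ρ θ)).re ≤
      ‖G (circleMap 0 ρ θ)‖ ^ 2 := by
    intro θ
    set t := circleMap 0 ρ θ with ht
    have hnt : ‖t‖ = ρ := by rw [ht, norm_circleMap_zero, abs_of_pos hρ]
    have hX : ‖t ^ N * k t‖ ^ 2 = c * ‖k t‖ ^ 2 := by
      rw [norm_mul, mul_pow, norm_pow, hnt, hc, ← pow_mul, mul_comm N 2]
    have h1 : ‖G t‖ ^ 2 = 1 + 2 * (t ^ N * k t).re + c * ‖k t‖ ^ 2 := by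
      rw [hGk t, ← hX, ← Complex.normSq_eq_norm_sq, ← Complex.normSq_eq_norm_sq,
        Complex.normSq_apply, Complex.normSq_apply]
      simp only [Complex.add_re, Complex.one_re, Complex.add_im, Complex.one_im]
      ring
    have h2 : (Y t).re = 2 * (t ^ N * k t).re + 2 * c * ((starRingEnd ℂ D) * k t).re := by
      have : Y t = ((2 : ℝ) : ℂ) * (t ^ N * k t) + ((2 * c : ℝ) : ℂ) * ((starRingEnd ℂ D) * k t) := by
        simp only [hY]
        push_cast
        ring
      rw [this, Complex.add_re, Complex.re_ofReal_mul, Complex.re_ofReal_mul]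
    have h3 : 2 * ((starRingEnd ℂ D) * k t).re ≤ ‖k t‖ ^ 2 + ‖D‖ ^ 2 := by
      rw [← Complex.normSq_eq_norm_sq, ← Complex.normSq_eq_norm_sq, Complex.normSq_apply,
        Complex.normSq_apply, Complex.mul_re, Complex.conj_re, Complex.conj_im]
      nlinarith [sq_nonneg ((k t).re - D.re), sq_nonneg ((k t).im - D.im)]
    have hc0 : 0 ≤ c := by positivity
    rw [h1, h2]
    nlinarith [mul_le_mul_of_nonneg_left h3 hc0]
  have hYc : Continuous fun θ : ℝ => Y (circleMap 0 ρ θ) :=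
    circ_cont hρ hρτ hYd.continuousOn
  have hGc : Continuous fun θ : ℝ => G (circleMap 0 ρ θ) :=
    circ_cont hρ hρτ hG.continuousOn
  have hint : ∫ θ in (0 : ℝ)..(2 * Real.pi), (1 - c * ‖D‖ ^ 2 + (Y (circleMap 0 ρ θ)).re) =
      2 * Real.pi * (1 + c * ‖D‖ ^ 2) := by
    have hre : ∫ θ in (0 : ℝ)..(2 * Real.pi), (Y (circleMap 0 ρ θ)).re =
        2 * Real.pi * (2 * c * ‖D‖ ^ 2) := by
      have h2 := Complex.reCLM.intervalIntegral_comp_comm (hYc.intervalIntegrable 0 (2 * Real.pi))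
        (μ := volume)
      simp only [Complex.reCLM_apply] at h2
      rw [h2, hmean, hY0]
      have h3 : (2 * (Real.pi : ℂ) * (2 * (c : ℂ) * (starRingEnd ℂ D) * D)) =
          ((2 * Real.pi * (2 * c * ‖D‖ ^ 2) : ℝ) : ℂ) := by
        have h4 : (starRingEnd ℂ D) * D = ((‖D‖ ^ 2 : ℝ) : ℂ) := by
          rw [mul_comm, Complex.mul_conj, Complex.normSq_eq_norm_sq]
        calc _ = 2 * (Real.pi : ℂ) * (2 * (c : ℂ) * ((starRingEnd ℂ D) * D)) := by ring
          _ = _ := by rw [h4]; push_cast; ring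
      rw [h3, Complex.ofReal_re]
    have hYr : Continuous fun θ : ℝ => (Y (circleMap 0 ρ θ)).re := Complex.continuous_re.comp hYc
    have h5 := intervalIntegral.integral_add (μ := volume) (a := (0 : ℝ)) (b := 2 * Real.pi)
      (f := fun _ : ℝ => 1 - c * ‖D‖ ^ 2) (g := fun θ : ℝ => (Y (circleMap 0 ρ θ)).re)
      (continuous_const.intervalIntegrable _ _) (hYr.intervalIntegrable _ _)
    rw [h5, hre, intervalIntegral.integral_const]
    simp only [smul_eq_mul]
    ring
  rw [← hint]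
  apply intervalIntegral.integral_mono_on (by positivity)
  · exact ((continuous_const).add (Complex.continuous_re.comp hYc)).intervalIntegrable _ _
  · exact ((hGc.norm).pow 2).intervalIntegrable _ _
  · intro θ _
    exact hlow θ

/-- holomorphic logarithms on discs -/
theorem exists_log {e : ℂ → ℂ} {τ : ℝ} (hτ : 0 < τ) (he : DifferentiableOn ℂ e (ball 0 τ))
    (hne : ∀ z ∈ ball (0 : ℂ) τ, e z ≠ 0) (h1 : e 0 = 1) :
    ∃ l : ℂ → ℂ, DifferentiableOn ℂ l (ball 0 τ) ∧ l 0 = 0 ∧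
      ∀ z ∈ ball (0 : ℂ) τ, Complex.exp (l z) = e z := by
  have hx₀ : (0 : ℂ) ∈ ball (0 : ℂ) τ := mem_ball_self hτ
  have hd : DifferentiableOn ℂ (fun z => deriv e z / e z) (ball 0 τ) :=
    (he.deriv isOpen_ball).div he hne
  obtain ⟨g, hg0, hg⟩ := hd.isExactOn_ball.with_val_at 0 0
  have hgd : DifferentiableOn ℂ g (ball 0 τ) := fun z hz =>
    (hg z hz).differentiableAt.differentiableWithinAt
  refine ⟨g, hgd, hg0, ?_⟩
  -- the function exp (-g) * e is constant
  have hk : ∀ z ∈ ball (0 : ℂ) τ, HasDerivAt (fun z => Complex.exp (-g z) * e z) 0 z := by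
    intro z hz
    have h1 : HasDerivAt e (deriv e z) z :=
      ((he z hz).differentiableAt (isOpen_ball.mem_nhds hz)).hasDerivAt
    have h2 := ((hg z hz).neg.cexp).mul h1
    refine h2.congr_deriv ?_
    have := hne z hz
    field_simp
    ring
  intro z hz
  have hc : Complex.exp (-g z) * e z = Complex.exp (-g 0) * e 0 :=
    isOpen_ball.is_const_of_deriv_eq_zero (convex_ball 0 τ).isPreconnected
      (fun w hw => (hk w hw).differentiableAt.differentiableWithinAt)
      (fun w hw => (hk w hw).deriv) hz hx₀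
  rw [hg0, h1, neg_zero, Complex.exp_zero, one_mul, Complex.exp_neg] at hc
  have h2 : Complex.exp (g z) ≠ 0 := Complex.exp_ne_zero _
  field_simp at hc
  exact hc.symm

/-- the power `(e t) ^ (- β)` along a nonvanishing holomorphic function -/
theorem exists_pow {N : ℕ} (hN : 1 ≤ N) {φ : ℂ → ℂ} {τ β : ℝ} {z w v : ℂ} (hτ : 0 < τ)
    (hφ : DifferentiableOn ℂ φ (ball 0 τ)) (hz : z - w ≠ 0)
    (hne : ∀ t ∈ ball (0 : ℂ) τ, φ t - w ≠ 0) (hT : T N φ z v) :
    ∃ E : ℂ → ℂ, DifferentiableOn ℂ E (ball 0 τ) ∧ T N E 1 (-(β / (z - w)) * v) ∧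
      ∀ t ∈ ball (0 : ℂ) τ, ‖E t‖ ^ 2 = ‖φ t - w‖ ^ (-(2 * β)) / ‖z - w‖ ^ (-(2 * β)) := by
  have h0 : φ 0 = z := by
    obtain ⟨g, _, _, he⟩ := hT
    have := he.self_of_nhds
    have hN0 : N ≠ 0 := by omega
    simpa [hN0] using this
  obtain ⟨l, hl, hl0, hle⟩ := exists_log (e := fun t => (φ t - w) / (z - w)) hτ
    ((hφ.sub_const w).div_const _) (fun t ht => div_ne_zero (hne t ht) hz)
    (by simp only [h0]; exact div_self hz)
  refine ⟨fun t => Complex.exp (-β * l t), (hl.const_mul _).cexp, ?_, ?_⟩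
  · -- near `0` the function `l` is the principal branch
    set f : ℂ → ℂ := fun x => Complex.exp (-β * Complex.log ((x - w) / (z - w))) with hf
    have hsl : (z - w) / (z - w) ∈ Complex.slitPlane := by rw [div_self hz]; simp
    have hfd : HasDerivAt f (-(β / (z - w))) z := by
      have h1 : HasDerivAt (fun x : ℂ => (x - w) / (z - w)) (1 / (z - w)) z :=
        ((hasDerivAt_id z).sub_const w).div_const _
      have h2 := ((h1.clog hsl).const_mul (-(β : ℂ))).cexp
      refine h2.congr_deriv ?_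
      rw [div_self hz, Complex.log_one, mul_zero, Complex.exp_zero]
      ring
    have hfa : AnalyticAt ℂ f z := by
      have h1 : AnalyticAt ℂ (fun x : ℂ => (x - w) / (z - w)) z := by
        have : (fun x : ℂ => (x - w) / (z - w)) = fun x => (x - w) * (z - w)⁻¹ := by
          funext x; rw [div_eq_mul_inv]
        rw [this]
        fun_prop
      exact (analyticAt_const.mul (h1.clog hsl)).cexp
    have hfz : f z = 1 := by simp [hf, div_self hz]
    have h3 := hT.comp hN hfa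
    rw [hfz, hfd.deriv] at h3
    obtain ⟨g, hg, hg0, he⟩ := h3
    refine ⟨g, hg, hg0, ?_⟩
    have hlc : ContinuousAt l 0 := (hl.differentiableAt (ball_mem_nhds _ hτ)).continuousAt
    have h4 : ∀ᶠ t in 𝓝 (0 : ℂ), ‖l t‖ < 1 := by
      have : Tendsto (fun t => ‖l t‖) (𝓝 0) (𝓝 ‖l 0‖) := hlc.norm
      rw [hl0, norm_zero] at this
      exact this.eventually_lt_const one_pos
    filter_upwards [he, h4, ball_mem_nhds (0 : ℂ) hτ] with t ht h5 h6
    rw [← ht]
    simp only [hf]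
    rw [← hle t h6, Complex.log_exp]
    · have := Complex.abs_im_le_norm (l t)
      have h7 := abs_le.1 (this.trans h5.le)
      have := Real.pi_gt_three
      linarith
    · have := Complex.abs_im_le_norm (l t)
      have h7 := abs_le.1 (this.trans h5.le)
      have := Real.pi_gt_three
      linarith
  · intro t ht
    have h1 : ‖φ t - w‖ / ‖z - w‖ = Real.exp (l t).re := by
      rw [← norm_div, ← hle t ht, Complex.norm_exp]
    have h2 : 0 < ‖z - w‖ := norm_pos_iff.2 hz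
    rw [← Real.div_rpow (norm_nonneg _) h2.le, h1, ← Real.exp_mul, Complex.norm_exp, sq,
      ← Real.exp_add]
    congr 1
    have h3 : (-(β : ℂ) * l t).re = -β * (l t).re := by
      have : (-(β : ℂ) * l t) = ((-β : ℝ) : ℂ) * l t := by push_cast; ring
      rw [this, Complex.re_ofReal_mul]
    rw [h3]
    ring

end Pool.Agent.W342.RE
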