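import Mathlib
import Pool.Agent.Helper540.Osgood
import Pool.Agent.W757.RD.StG
import Pool.Agent.W342.RE.GA

set_option autoImplicit false

/-! Two variable part of the gain of area (RE-GAIN). -/

open Topology Filter Metric Set MeasureTheory

namespace Pool.Agent.W342.RE

open Pool.Agent.Helper540 Pool.Agent.W757.RD

theorem T.congr {N : ℕ} {G G' : ℂ → ℂ} {a b : ℂ} (h : T N G a b) (he : G' =ᶠ[𝓝 0] G) :
    T N G' a b := by
  obtain ⟨g, hg, hg0, h1⟩ := h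
  refine ⟨g, hg, hg0, ?_⟩
  filter_upwards [h1, he] with t h2 h3
  rw [h3, h2]

/-- symmetry of the second derivatives -/
theorem symm2 {G : ℂ × ℂ → ℂ} {U : Set (ℂ × ℂ)} (hU : IsOpen U) (hG : DifferentiableOn ℂ G U)
    (e f : ℂ × ℂ) {p : ℂ × ℂ} (hp : p ∈ U) :
    fderiv ℂ (fun x => fderiv ℂ G x e) p f = fderiv ℂ (fun x => fderiv ℂ G x f) p e := by
  have h2 : ContDiffAt ℂ 2 G p :=
    (contDiffOn_of_differentiableOn hU hG 2).contDiffAt (hU.mem_nhds hp)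
  have hs : IsSymmSndFDerivAt ℂ G p := h2.isSymmSndFDerivAt (by simp)
  have hd : DifferentiableAt ℂ (fderiv ℂ G) p :=
    (h2.fderiv_right (m := 1) (by norm_num)).differentiableAt (by norm_num)
  have key : ∀ v w : ℂ × ℂ, fderiv ℂ (fun x => fderiv ℂ G x v) p w =
      fderiv ℂ (fderiv ℂ G) p w v := by
    intro v w
    have h1 := (hd.hasFDerivAt.clm_apply (hasFDerivAt_const v p)).fderiv
    rw [h1]
    simp
  rw [key, key]
  exact hs.eq f e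

theorem dirD_comm {G : ℂ × ℂ → ℂ} {U : Set (ℂ × ℂ)} (hU : IsOpen U)
    (hG : DifferentiableOn ℂ G U) (e f : ℂ × ℂ) (k : ℕ) : ∀ p ∈ U,
    fderiv ℂ (dirD G e k) p f = dirD (fun p => fderiv ℂ G p f) e k p := by
  induction k with
  | zero => intro p _; rfl
  | succ k ih =>
    intro p hp
    show fderiv ℂ (fun x => fderiv ℂ (dirD G e k) x e) p f =
      fderiv ℂ (dirD (fun p => fderiv ℂ G p f) e k) p e
    rw [symm2 hU (dirD_diff hU hG e k) e f hp]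
    have h1 : (fun x => fderiv ℂ (dirD G e k) x f) =ᶠ[𝓝 p]
        dirD (fun p => fderiv ℂ G p f) e k := by
      filter_upwards [hU.mem_nhds hp] with x hx
      exact ih x hx
    rw [h1.fderiv_eq]

/-- the motion as a function of a pair -/
def J (Φ : ℂ → ℂ → ℂ) (p : ℂ × ℂ) : ℂ := Φ p.1 p.2

section

variable {τ : ℝ} {W : Set ℂ} {Φ : ℂ → ℂ → ℂ}

theorem isOpen_U (τ : ℝ) (hW : IsOpen W) : IsOpen (ball (0 : ℂ) τ ×ˢ W) := isOpen_ball.prod hW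

theorem hasDerivAt_z (hW : IsOpen W) {G : ℂ × ℂ → ℂ}
    (hd : DifferentiableOn ℂ G (ball 0 τ ×ˢ W)) {t z : ℂ} (ht : t ∈ ball (0 : ℂ) τ)
    (hz : z ∈ W) : HasDerivAt (fun z => G (t, z)) (fderiv ℂ G (t, z) (0, 1)) z := by
  have h1 : HasFDerivAt G (fderiv ℂ G (t, z)) (t, z) :=
    (hd.differentiableAt ((isOpen_U τ hW).mem_nhds ⟨ht, hz⟩)).hasFDerivAt
  have h2 : HasDerivAt (fun z : ℂ => ((t, z) : ℂ × ℂ)) (0, 1) z :=
    (hasDerivAt_const z t).prodMk (hasDerivAt_id z)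
  exact h1.comp_hasDerivAt z h2

theorem deriv_z (hW : IsOpen W) (hd : DifferentiableOn ℂ (J Φ) (ball 0 τ ×ˢ W)) {t z : ℂ}
    (ht : t ∈ ball (0 : ℂ) τ) (hz : z ∈ W) :
    deriv (Φ t) z = fderiv ℂ (J Φ) (t, z) (0, 1) :=
  (hasDerivAt_z hW hd ht hz).deriv

theorem diff_t {G : ℂ × ℂ → ℂ} (hd : DifferentiableOn ℂ G (ball 0 τ ×ˢ W)) {z : ℂ}
    (hz : z ∈ W) : DifferentiableOn ℂ (fun t => G (t, z)) (ball 0 τ) := by
  apply hd.comp (by fun_prop)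
  intro t ht
  exact ⟨ht, hz⟩

theorem iter_t (hτ : 0 < τ) (hW : IsOpen W) {G : ℂ × ℂ → ℂ}
    (hd : DifferentiableOn ℂ G (ball 0 τ ×ˢ W)) {z : ℂ} (hz : z ∈ W) (k : ℕ) :
    iteratedDeriv k (fun t => G (t, z)) 0 = dirD G (1, 0) k (0, z) := by
  have h := iteratedDeriv_dirD (isOpen_U τ hW) hd (0, z) (1, 0) k 0 (by
    simpa using ⟨hτ, hz⟩)
  simpa using h

/-- the expansions of the motion and its derivative -/
theorem expand {N : ℕ} (hN : 1 ≤ N) (hτ : 0 < τ) (hW : IsOpen W)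
    (hd : DifferentiableOn ℂ (J Φ) (ball 0 τ ×ˢ W)) (h0 : ∀ z ∈ W, Φ 0 z = z)
    (hv : ∀ z ∈ W, ∀ k : ℕ, 1 ≤ k → k < N → cf Φ k z = 0) {z : ℂ} (hz : z ∈ W) :
    T N (fun t => Φ t z) z (cf Φ N z) ∧
      T N (fun t => deriv (Φ t) z) 1 (deriv (cf Φ N) z) := by
  have hτ0 : (0 : ℂ) ∈ ball (0 : ℂ) τ := mem_ball_self hτ
  have hfac : ∀ k : ℕ, ((Nat.factorial k : ℂ))⁻¹ ≠ 0 := fun k =>
    inv_ne_zero (Nat.cast_ne_zero.2 (Nat.factorial_ne_zero k))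
  have hit : ∀ k : ℕ, 1 ≤ k → k < N → ∀ z' ∈ W, iteratedDeriv k (fun t => Φ t z') 0 = 0 := by
    intro k h1 h2 z' hz'
    have := hv z' hz' k h1 h2
    unfold cf at this
    exact (mul_eq_zero.1 this).resolve_left (hfac k)
  have hdir : ∀ k : ℕ, ∀ z' ∈ W, iteratedDeriv k (fun t => Φ t z') 0 =
      dirD (J Φ) (1, 0) k (0, z') := fun k z' hz' => iter_t hτ hW hd hz' k
  constructor
  · have h1 : AnalyticAt ℂ (fun t => Φ t z) 0 :=
      (diff_t hd hz).analyticAt (ball_mem_nhds _ hτ)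
    have h2 := T.of_taylor hN h1 (fun k h3 h4 => hit k h3 h4 z hz)
    simp only [h0 z hz] at h2
    exact h2
  · set G : ℂ × ℂ → ℂ := fun p => fderiv ℂ (J Φ) p (0, 1) with hG
    have hGd : DifferentiableOn ℂ G (ball 0 τ ×ˢ W) :=
      differentiableOn_fderiv_apply (isOpen_U τ hW) hd (0, 1)
    have h1 : AnalyticAt ℂ (fun t => G (t, z)) 0 :=
      (diff_t hGd hz).analyticAt (ball_mem_nhds _ hτ)
    -- the Taylor coefficients of the derivative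
    have h3 : ∀ k : ℕ, HasDerivAt (fun z' => dirD (J Φ) (1, 0) k (0, z'))
        (iteratedDeriv k (fun t => G (t, z)) 0) z := by
      intro k
      rw [iter_t hτ hW hGd hz k, hG, ← dirD_comm (isOpen_U τ hW) hd (1, 0) (0, 1) k (0, z)
        ⟨hτ0, hz⟩]
      exact hasDerivAt_z hW (dirD_diff (isOpen_U τ hW) hd (1, 0) k) hτ0 hz
    have h4 : ∀ k : ℕ, deriv (fun z' => iteratedDeriv k (fun t => Φ t z') 0) z =
        iteratedDeriv k (fun t => G (t, z)) 0 := by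
      intro k
      rw [← (h3 k).deriv]
      apply Filter.EventuallyEq.deriv_eq
      filter_upwards [hW.mem_nhds hz] with z' hz'
      exact hdir k z' hz'
    have h5 : ∀ k : ℕ, 1 ≤ k → k < N → iteratedDeriv k (fun t => G (t, z)) 0 = 0 := by
      intro k hk1 hk2
      rw [← h4 k]
      have h6 : (fun z' => iteratedDeriv k (fun t => Φ t z') 0) =ᶠ[𝓝 z] fun _ => 0 := by
        filter_upwards [hW.mem_nhds hz] with z' hz'
        exact hit k hk1 hk2 z' hz'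
      rw [h6.deriv_eq, deriv_const]
    have h6 := T.of_taylor hN h1 h5
    have h7 : G (0, z) = 1 := by
      rw [hG]
      show fderiv ℂ (J Φ) (0, z) (0, 1) = 1
      rw [← deriv_z hW hd hτ0 hz]
      have h8 : Φ 0 =ᶠ[𝓝 z] fun z => z := by
        filter_upwards [hW.mem_nhds hz] with z' hz'
        exact h0 z' hz'
      rw [h8.deriv_eq, deriv_id'']
    have h8 : (Nat.factorial N : ℂ)⁻¹ * iteratedDeriv N (fun t => G (t, z)) 0 =
        deriv (cf Φ N) z := by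
      rw [← h4 N]
      unfold cf
      rw [deriv_const_mul_field]
    rw [h7, h8] at h6
    apply h6.congr
    filter_upwards [ball_mem_nhds (0 : ℂ) hτ] with t ht
    exact deriv_z hW hd ht hz

end

theorem rho_pos {β : ℝ} {z : ℂ} (h0 : z ≠ 0) (h1 : z ≠ 1) : 0 < rho β z := by
  unfold rho
  have := norm_pos_iff.2 h0
  have := norm_pos_iff.2 (sub_ne_zero.2 h1)
  positivity

/-- the pointwise inequality -/
theorem pointwise {β τ ρ : ℝ} {N : ℕ} {W : Set ℂ} {Φ : ℂ → ℂ → ℂ} (hρ : 0 < ρ) (hρτ : ρ < τ)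
    (hN : 1 ≤ N) (hW : IsOpen W) (hd : DifferentiableOn ℂ (J Φ) (ball 0 τ ×ˢ W))
    (h0 : ∀ z ∈ W, Φ 0 z = z)
    (hb : ∀ t ∈ ball (0 : ℂ) τ, ∀ z ∈ W, z ≠ 0 → z ≠ 1 → Φ t z ≠ 0 ∧ Φ t z ≠ 1)
    (hv : ∀ z ∈ W, ∀ k : ℕ, 1 ≤ k → k < N → cf Φ k z = 0) {z : ℂ} (hz : z ∈ W) (hz0 : z ≠ 0)
    (hz1 : z ≠ 1) :
    2 * Real.pi * (rho β z * (1 + ρ ^ (2 * N) * ‖Dv β (cf Φ N) z‖ ^ 2)) ≤
      ∫ θ in (0 : ℝ)..(2 * Real.pi),
        ‖deriv (Φ (circleMap 0 ρ θ)) z‖ ^ 2 * rho β (Φ (circleMap 0 ρ θ) z) := by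
  have hτ : 0 < τ := hρ.trans hρτ
  obtain ⟨hT, hT'⟩ := expand hN hτ hW hd h0 hv hz
  have hφ : DifferentiableOn ℂ (fun t => Φ t z) (ball 0 τ) := diff_t hd hz
  have hP : DifferentiableOn ℂ (fun t => deriv (Φ t) z) (ball 0 τ) := by
    have h1 : DifferentiableOn ℂ (fun p => fderiv ℂ (J Φ) p (0, 1)) (ball 0 τ ×ˢ W) :=
      differentiableOn_fderiv_apply (isOpen_U τ hW) hd (0, 1)
    exact (diff_t h1 hz).congr fun t ht => deriv_z hW hd ht hz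
  obtain ⟨E₁, hE₁, hE₁T, hE₁n⟩ := exists_pow (β := β) (w := 0) hN hτ hφ (by simpa using hz0)
    (fun t ht => by simpa using (hb t ht z hz hz0 hz1).1) hT
  obtain ⟨E₂, hE₂, hE₂T, hE₂n⟩ := exists_pow (β := β) (w := 1) hN hτ hφ (sub_ne_zero.2 hz1)
    (fun t ht => sub_ne_zero.2 (hb t ht z hz hz0 hz1).2) hT
  set G : ℂ → ℂ := fun t => deriv (Φ t) z * (E₁ t * E₂ t) with hG
  have hGd : DifferentiableOn ℂ G (ball 0 τ) := hP.mul (hE₁.mul hE₂)
  have hGT : T N G 1 (Dv β (cf Φ N) z) := by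
    have h1 := hT'.mul hN (hE₁T.mul hN hE₂T)
    have e1 : (1 : ℂ) * (1 * 1) = 1 := by ring
    have e2 : (1 : ℂ) * (1 * (-(β / (z - 1)) * cf Φ N z) + -(β / (z - 0)) * cf Φ N z * 1) +
        deriv (cf Φ N) z * (1 * 1) = Dv β (cf Φ N) z := by
      unfold Dv gg
      rw [sub_zero]
      ring
    rw [e1, e2] at h1
    exact h1
  have h2 := bessel hN hρ hρτ hGd hGT
  have hr := rho_pos (β := β) hz0 hz1
  have h3 : ∀ θ : ℝ, ‖deriv (Φ (circleMap 0 ρ θ)) z‖ ^ 2 * rho β (Φ (circleMap 0 ρ θ) z) =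
      rho β z * ‖G (circleMap 0 ρ θ)‖ ^ 2 := by
    intro θ
    set t := circleMap 0 ρ θ
    have ht : t ∈ ball (0 : ℂ) τ := circ_mem hρ hρτ θ
    have hn0 : 0 < ‖z‖ := norm_pos_iff.2 hz0
    have hn1 : 0 < ‖z - 1‖ := norm_pos_iff.2 (sub_ne_zero.2 hz1)
    have e1 := hE₁n t ht
    have e2 := hE₂n t ht
    rw [sub_zero, sub_zero] at e1
    simp only [hG]
    rw [norm_mul, norm_mul, mul_pow, mul_pow, e1, e2]
    unfold rho
    have p0 : 0 < ‖z‖ ^ (-(2 * β)) := by positivity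
    have p1 : 0 < ‖z - 1‖ ^ (-(2 * β)) := by positivity
    field_simp
  simp_rw [h3]
  rw [intervalIntegral.integral_const_mul]
  calc 2 * Real.pi * (rho β z * (1 + ρ ^ (2 * N) * ‖Dv β (cf Φ N) z‖ ^ 2))
      = rho β z * (2 * Real.pi * (1 + ρ ^ (2 * N) * ‖Dv β (cf Φ N) z‖ ^ 2)) := by ring
    _ ≤ _ := mul_le_mul_of_nonneg_left h2 hr.le

end Pool.Agent.W342.RE
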